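import Pool.Agent.Lib.MP_a6e91d_co.Main

set_option autoImplicit false

namespace Pool.Agent.Results.MP_a6e91d_co.NoPerfect

/-- No finite abelian group of order `a(m,s)` has an `s`-spanning family of size `m`
when `s ≥ 2` and `m ≥ 3`. -/
theorem result (s m : ℕ) (hs : 2 ≤ s) (hm : 3 ≤ m) (G : Type) [AddCommGroup G] [Fintype G]
    (hG : Fintype.card G = ∑ i ∈ Finset.range (m + 1), Nat.choose m i * Nat.choose s i * 2 ^ i)
    (a : Fin m → G) :
    ∃ x : G, ∀ c : Fin m → ℤ, ∑ i, |c i| ≤ (s : ℤ) → ∑ i, c i • a i ≠ x := by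
  by_contra h
  push Not at h
  exact Pool.Agent.Lib.MP_a6e91d_co.main_group hs hm hG a h

end Pool.Agent.Results.MP_a6e91d_co.NoPerfect
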