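import Pool.Agent.Lib.MP_a6e91d_co.NL.Five
import Pool.Agent.Lib.MP_a6e91d_co.NL.Bridge

set_option autoImplicit false

namespace Pool.Agent.Results.MP_a6e91d_co.NonLatticeFive

/-- For `m ≥ 3`, `s ≥ 5` and `(s, m) ≠ (5, 15)` no set `C` of centres, lattice or not, has every
point of `ℤ^m` within `ℓ¹`-distance `s` of exactly one centre. -/
theorem result (m s : ℕ) (hm : 3 ≤ m) (hs : 5 ≤ s) (hx : ¬ (s = 5 ∧ m = 15))
    (C : Set (Fin m → ℤ)) :
    ¬ ∀ x : Fin m → ℤ, ∃! c : Fin m → ℤ, c ∈ C ∧ ∑ i, |x i - c i| ≤ (s : ℤ) := by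
  intro h
  obtain ⟨T⟩ := Pool.Agent.Lib.MP_a6e91d_co.exists_code C h
  exact T.five_le hs hm hx

end Pool.Agent.Results.MP_a6e91d_co.NonLatticeFive
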